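import Pool.Agent.T63.BrocJ

set_option autoImplicit false

/-!
# MP_739ba1_nt: clusters of values of `N(n)` of every size between two record values

`N(n)` is the number of the primes strictly between the squares of the `n`-th and the `(n + 1)`-th
prime; its average size is `n log n`. Let `f(X) = log X (log₂ X)² log₄ X / (log₃ X)²`, the size of the
largest gaps between primes that are known to occur. For every `H` between `1` and `c f(X)` there are at
least `X ^ (6/7)` integers `n` with `X < p_n ≤ 4 X` for which, with some `s` between `k` and `K`, the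
`s` consecutive values `N(n), …, N(n+s-1)` are all of size `n H` (up to constants), the two values
`N(n-1)` and `N(n+s)` next to them are at least `c n f(X)`, and the primes `p_n, …, p_(n+s)` are all
congruent to `a` modulo `q`.

Proof: the theorem on primes in tuples inside record gaps (`Pool.Agent.TH101.RG.tuple_multiples`,
starting library), the lower bound of the right order for the number of primes between the squares of
consecutive primes outside an exceptional set of at most `C X ^ 0.612` primes (`Pool.Agent.H89B.Exc`)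
and the theorem of Brun and Titchmarsh.
-/

namespace Pool.Agent.Results.MP_739ba1_nt.IsolatedClusters

/-- The `n`-th prime, `p 1 = 2`. -/
noncomputable def p (n : ℕ) : ℕ := Nat.nth Nat.Prime (n - 1)

/-- The number of primes strictly between `p n ^ 2` and `p (n + 1) ^ 2`. -/
noncomputable def N (n : ℕ) : ℕ := {r : ℕ | r.Prime ∧ p n ^ 2 < r ∧ r < p (n + 1) ^ 2}.ncard

/-- `f(X) = log X (log₂ X)² log₄ X / (log₃ X)²` (iterated natural logarithms). -/
noncomputable def f (X : ℝ) : ℝ :=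
  Real.log X * (Real.log (Real.log X)) ^ 2 * Real.log (Real.log (Real.log (Real.log X))) /
    (Real.log (Real.log (Real.log X))) ^ 2

/-- `X < p_n ≤ 4 X`; for some `s` with `k ≤ s ≤ K` the primes `p_n, …, p_(n+s)` are congruent to `a`
modulo `q`, the numbers `N(n), …, N(n+s-1)` are between `c n H` and `n H / c`, and `N(n-1)` and `N(n+s)`
are at least `c n f(X)`. -/
def Cluster (k K q a : ℕ) (c H X : ℝ) (n : ℕ) : Prop :=
  2 ≤ n ∧ X < (p n : ℝ) ∧ (p n : ℝ) ≤ 4 * X ∧ ∃ s, k ≤ s ∧ s ≤ K ∧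
    (∀ i ≤ s, p (n + i) ≡ a [MOD q]) ∧
    (∀ i < s, c * (n * H) ≤ N (n + i) ∧ (N (n + i) : ℝ) ≤ n * H / c) ∧
    c * (n * f X) ≤ N (n - 1) ∧ c * (n * f X) ≤ N (n + s)

/-- For all `k` and all squarefree `q` there are `K` and `c > 0` such that for every `a` coprime to `q`
and all large `X`: for every `H` with `1 ≤ H ≤ c f(X)` there are at least `X ^ (6/7)` such `n`. -/
theorem result (k q : ℕ) (hq : Squarefree q) : ∃ K : ℕ, ∃ c : ℝ, 0 < c ∧ ∀ a : ℕ, a.Coprime q →
    ∃ X₀ : ℝ, ∀ X : ℝ, X₀ ≤ X → ∀ H : ℝ, 1 ≤ H → H ≤ c * f X →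
      X ^ (6 / 7 : ℝ) ≤ ({n : ℕ | Cluster k K q a c H X n}.ncard : ℝ) := by
  obtain ⟨K, c, hc, hmain⟩ := Pool.Agent.T63.Broc.isolated_final k q hq
  refine ⟨K, c, hc, fun a ha => ?_⟩
  obtain ⟨X₀, hX₀⟩ := Filter.eventually_atTop.1 (hmain a ha)
  refine ⟨X₀, fun X hX H hH1 hH2 => (hX₀ X hX H hH1 hH2).trans ?_⟩
  rw [Nat.cast_le]
  have hp : ∀ n : ℕ, p (n + 1) = Pool.Agent.T63.Broc.P n := fun n => rfl
  have hN : ∀ n : ℕ, N (n + 1) = Pool.Agent.T63.Broc.N n := fun n => rfl
  have hfin : {n : ℕ | Cluster k K q a c H X n}.Finite := by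
    refine (Set.finite_Iic (⌊4 * X⌋₊ + 1)).subset ?_
    rintro n ⟨h0, -, h1, -⟩
    rw [Set.mem_Iic]
    obtain ⟨m, rfl⟩ : ∃ m, n = m + 1 := ⟨n - 1, by omega⟩
    rw [hp] at h1
    have h2 : m ≤ ⌊4 * X⌋₊ := by
      refine Nat.le_floor (le_trans ?_ h1)
      exact_mod_cast Pool.Agent.T63.Broc.le_P m
    omega
  rw [← Set.ncard_image_of_injective _ (add_left_injective 1)]
  refine Set.ncard_le_ncard ?_ hfin
  rintro _ ⟨n, ⟨h0, h1, h2, s, h3, h4, h5, h6, h7, h8⟩, rfl⟩
  have e : ∀ i : ℕ, N (n + 1 + i) = Pool.Agent.T63.Broc.N (n + i) := fun i => by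
    rw [show n + 1 + i = n + i + 1 by omega, hN]
  have ec : (((n + 1 : ℕ) : ℕ) : ℝ) = (n : ℝ) + 1 := by push_cast; ring
  change Cluster k K q a c H X (n + 1)
  refine ⟨by omega, ?_, ?_, s, h3, h4, fun i hi => ?_, fun i hi => ⟨?_, ?_⟩, ?_, ?_⟩
  · rw [hp]; exact h1
  · rw [hp]; exact h2
  · rw [show n + 1 + i = n + i + 1 by omega, hp]
    exact h5 i hi
  · rw [e, ec]
    have h9 := (h6 i hi).1
    linarith
  · rw [e, ec, le_div_iff₀ hc]
    have h9 := (h6 i hi).2
    linarith
  · obtain ⟨j, rfl⟩ : ∃ j, n = j + 1 := ⟨n - 1, by omega⟩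
    rw [show j + 1 + 1 - 1 = j + 1 by omega, hN, ec]
    rw [show j + 1 - 1 = j by omega] at h7
    have h9 : c * (((j + 1 : ℕ) : ℝ) + 1) * f X ≤ Pool.Agent.T63.Broc.N j := h7
    linarith
  · rw [e, ec]
    have h9 : c * ((n : ℝ) + 1) * f X ≤ Pool.Agent.T63.Broc.N (n + s) := h8
    linarith

end Pool.Agent.Results.MP_739ba1_nt.IsolatedClusters
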