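import Mathlib
import Pool.Agent.H89B.Exc
import Pool.Agent.Y826.ZC.Cons

/-!
# Brocard's conjecture in the right order inside admissible tuples

For infinitely many consecutive primes `p < q` with `q - p ≤ 212`, and in every admissible 45-tuple, all
intervals of length at least `p ^ (1 - η)` between `p ^ 2` and `q ^ 2` contain the right order of primes.
-/

set_option autoImplicit false

open Finset Filter Pool.Agent.H89B

namespace Pool.Agent.Results.MP_739ba1_nt.NarrowTuples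

/-- `p < q` are consecutive primes, at least four primes lie strictly between `p ^ 2` and `q ^ 2`, and every
interval `(y, y + h]` with `p ^ 2 ≤ y`, `y + h ≤ q ^ 2`, `h ≥ p ^ (1 - η)` contains at least `c h / log p`
primes -/
def Brocard (c η : ℝ) (p q : ℕ) : Prop :=
  Consecutive p q ∧ 4 ≤ {r : ℕ | r.Prime ∧ p ^ 2 < r ∧ r < q ^ 2}.ncard ∧ Rich c η p q

theorem four (c η : ℝ) (hc : 0 < c) (hη : 0 < η) : ∃ P₀ : ℕ, ∀ p q : ℕ, P₀ ≤ p → Consecutive p q →
    Rich c η p q → Brocard c η p q := by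
  have h1 : Tendsto (fun x : ℝ => x / Real.log x) atTop atTop := by
    have h := (Real.tendsto_exp_div_pow_atTop 1).comp Real.tendsto_log_atTop
    refine h.congr' ?_
    filter_upwards [eventually_gt_atTop 1] with x hx
    simp only [Function.comp, pow_one]
    rw [Real.exp_log (by linarith)]
  obtain ⟨X₀, hX₀⟩ := (h1.eventually_ge_atTop (4 / c)).exists_forall_of_atTop
  refine ⟨⌈X₀⌉₊ + 2, fun p q hp hpq hR => ⟨hpq, ?_, hR⟩⟩
  have hpX : X₀ ≤ p := by
    have : ((⌈X₀⌉₊ : ℕ) : ℝ) ≤ p := by exact_mod_cast (by omega : ⌈X₀⌉₊ ≤ p)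
    exact (Nat.le_ceil X₀).trans this
  have hp1 : (1 : ℝ) < p := by exact_mod_cast hpq.1.one_lt
  have hlog : 0 < Real.log p := Real.log_pos hp1
  have hq : (p : ℝ) + 1 ≤ q := by exact_mod_cast hpq.2.2.1
  have hlen : (p : ℝ) ≤ (q : ℝ) ^ 2 - (p : ℝ) ^ 2 := by nlinarith
  have h2 := hR ((p : ℝ) ^ 2) ((q : ℝ) ^ 2 - (p : ℝ) ^ 2) (le_trans (by
    calc (p : ℝ) ^ (1 - η) ≤ (p : ℝ) ^ (1 : ℝ) := Real.rpow_le_rpow_of_exponent_le hp1.le (by linarith)
      _ = p := Real.rpow_one _) hlen) le_rfl (by linarith)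
  have h3 := hX₀ p hpX
  have h4 : (4 : ℝ) ≤ c * ((q : ℝ) ^ 2 - (p : ℝ) ^ 2) / Real.log p := by
    have h5 : c * (4 / c) ≤ c * (p / Real.log p) := mul_le_mul_of_nonneg_left h3 hc.le
    have h6 : c * (4 / c) = 4 := by field_simp
    have h7 : c * (p / Real.log p) ≤ c * ((q : ℝ) ^ 2 - (p : ℝ) ^ 2) / Real.log p := by
      rw [← mul_div_assoc]
      gcongr
    linarith
  have h5 : (4 : ℝ) ≤ (primesIn ((p : ℝ) ^ 2) ((p : ℝ) ^ 2 + ((q : ℝ) ^ 2 - (p : ℝ) ^ 2)) : ℝ) := h4.trans h2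
  have h6 : 4 ≤ primesIn ((p : ℝ) ^ 2) ((p : ℝ) ^ 2 + ((q : ℝ) ^ 2 - (p : ℝ) ^ 2)) := by exact_mod_cast h5
  refine h6.trans ?_
  unfold primesIn
  apply Set.ncard_le_ncard
  · rintro r ⟨h7, h8, h9⟩
    have h9' : (r : ℝ) ≤ ((q ^ 2 : ℕ) : ℝ) := by push_cast; linarith
    have h8' : ((p ^ 2 : ℕ) : ℝ) < r := by push_cast; exact h8
    refine ⟨h7, by exact_mod_cast h8', lt_of_le_of_ne (by exact_mod_cast h9') ?_⟩
    rintro rfl
    exact (Nat.Prime.prime h7).not_isSquare ⟨q, sq q⟩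
  · exact (Set.finite_Iio (q ^ 2)).subset fun r hr => hr.2.2

/-- the two smallest primes of the tuple are consecutive -/
theorem first_two (a : Fin 45 → ℤ) (hinj : Function.Injective a) (n : ℕ)
    (h1 : ∃ i j, i ≠ j ∧ ∃ p q : ℕ, p.Prime ∧ q.Prime ∧ (p : ℤ) = n + a i ∧ (q : ℤ) = n + a j)
    (h2 : ∀ p : ℕ, p.Prime → (∃ i j, (n : ℤ) + a i ≤ p ∧ (p : ℤ) ≤ n + a j) → ∃ i, (p : ℤ) = n + a i) :
    ∃ i j, ∃ p q : ℕ, (p : ℤ) = n + a i ∧ (q : ℤ) = n + a j ∧ Consecutive p q := by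
  classical
  obtain ⟨i, j, hij, p, q, hp, hq, hpi, hqj⟩ := h1
  set I : Finset (Fin 45) := univ.filter (fun k => ∃ r : ℕ, r.Prime ∧ (r : ℤ) = n + a k) with hI
  have hiI : i ∈ I := mem_filter.2 ⟨mem_univ _, p, hp, hpi⟩
  have hjI : j ∈ I := mem_filter.2 ⟨mem_univ _, q, hq, hqj⟩
  obtain ⟨i₀, hi₀, hmin⟩ := exists_min_image I a ⟨i, hiI⟩
  have hne : (I.erase i₀).Nonempty := by
    by_cases h : i = i₀
    · exact ⟨j, mem_erase.2 ⟨fun h' => hij (h.trans h'.symm), hjI⟩⟩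
    · exact ⟨i, mem_erase.2 ⟨h, hiI⟩⟩
  obtain ⟨j₀, hj₀, hmin1⟩ := exists_min_image (I.erase i₀) a hne
  obtain ⟨hj0a, hj0b⟩ := mem_erase.1 hj₀
  obtain ⟨-, p₀, hp₀, hp₀'⟩ := mem_filter.1 hi₀
  obtain ⟨-, q₀, hq₀, hq₀'⟩ := mem_filter.1 hj0b
  have hlt : a i₀ < a j₀ := lt_of_le_of_ne (hmin j₀ hj0b) (fun h => hj0a (hinj h).symm)
  refine ⟨i₀, j₀, p₀, q₀, hp₀', hq₀', hp₀, hq₀, by omega, ?_⟩
  intro r hr1 hr2 hr
  obtain ⟨k, hk⟩ := h2 r hr ⟨i₀, j₀, by omega, by omega⟩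
  have hkI : k ∈ I := mem_filter.2 ⟨mem_univ _, r, hr, hk⟩
  have hki : k ≠ i₀ := by
    rintro rfl
    omega
  have := hmin1 k (mem_erase.2 ⟨hki, hkI⟩)
  omega

/-- few bad primes -/
theorem few (c η C : ℝ) (hC : 0 < C) (hE : ∀ X : ℝ, 1 ≤ X → ∀ S : Finset ℕ,
    (∀ p ∈ S, (p : ℝ) ≤ X ∧ ∃ q, Consecutive p q ∧ ¬ Rich c η p q) → (S.card : ℝ) ≤ C * X ^ (0.612 : ℝ))
    (P₀ : ℕ) (A : ℝ) (hA : 0 ≤ A) (ε : ℝ) (hε : 0 < ε) : ∀ᶠ x : ℝ in atTop, ∀ S : Finset ℕ,
      (∀ p ∈ S, (p : ℝ) ≤ x + A ∧ (p < P₀ ∨ ∃ q, Consecutive p q ∧ ¬ Rich c η p q)) →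
      45 * (S.card : ℝ) + x ^ (1 - ε) ≤ x ^ (1 - min (ε / 2) (1 / 10)) := by
  set δ : ℝ := min (ε / 2) (1 / 10) with hδ
  have hδ0 : 0 < δ := lt_min (by linarith) (by norm_num)
  have hδ1 : δ ≤ ε / 2 := min_le_left _ _
  have hδ2 : δ ≤ 1 / 10 := min_le_right _ _
  have t1 : Tendsto (fun x : ℝ => x ^ (ε - δ)) atTop atTop := tendsto_rpow_atTop (by linarith)
  have t2 : Tendsto (fun x : ℝ => x ^ (1 - δ - 0.612 : ℝ)) atTop atTop :=
    tendsto_rpow_atTop (by linarith)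
  filter_upwards [t1.eventually_ge_atTop 2, t2.eventually_ge_atTop (2 * (45 * (P₀ + C * (1 + A) ^ (0.612 : ℝ)))),
    eventually_ge_atTop (1 : ℝ)] with x h1 h2 hx S hS
  classical
  have hx0 : 0 < x := by linarith
  have hsplit : S.card ≤ (S.filter (fun p => p < P₀)).card + (S.filter (fun p => ¬ p < P₀)).card := by
    rw [card_filter_add_card_filter_not]
  have hc1 : (S.filter (fun p => p < P₀)).card ≤ P₀ := by
    have : (S.filter (fun p => p < P₀)) ⊆ range P₀ := fun p hp => mem_range.2 (mem_filter.1 hp).2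
    simpa using card_le_card this
  have hc2 := hE (x + A) (by linarith) (S.filter (fun p => ¬ p < P₀)) (by
    intro p hp
    obtain ⟨h3, h4⟩ := mem_filter.1 hp
    obtain ⟨h5, h6⟩ := hS p h3
    exact ⟨h5, h6.resolve_left h4⟩)
  have hc3 : (x + A) ^ (0.612 : ℝ) ≤ (1 + A) ^ (0.612 : ℝ) * x ^ (0.612 : ℝ) := by
    rw [← Real.mul_rpow (by linarith) hx0.le]
    apply Real.rpow_le_rpow (by linarith) (by nlinarith) (by norm_num)
  have hx1 : (1 : ℝ) ≤ x ^ (0.612 : ℝ) := Real.one_le_rpow hx (by norm_num)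
  have hcard : (S.card : ℝ) ≤ (P₀ + C * (1 + A) ^ (0.612 : ℝ)) * x ^ (0.612 : ℝ) := by
    have h3 : (S.card : ℝ) ≤ ((S.filter (fun p => p < P₀)).card : ℝ) +
        ((S.filter (fun p => ¬ p < P₀)).card : ℝ) := by exact_mod_cast hsplit
    have h4 : ((S.filter (fun p => p < P₀)).card : ℝ) ≤ P₀ := by exact_mod_cast hc1
    have h5 : (P₀ : ℝ) ≤ P₀ * x ^ (0.612 : ℝ) := by
      have : (0 : ℝ) ≤ P₀ := Nat.cast_nonneg _
      nlinarith
    have h6 : C * (x + A) ^ (0.612 : ℝ) ≤ C * ((1 + A) ^ (0.612 : ℝ) * x ^ (0.612 : ℝ)) :=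
      mul_le_mul_of_nonneg_left hc3 hC.le
    nlinarith
  have e1 : x ^ (1 - δ) = x ^ (1 - ε) * x ^ (ε - δ) := by
    rw [← Real.rpow_add hx0]; congr 1; ring
  have e2 : x ^ (1 - δ) = x ^ (0.612 : ℝ) * x ^ (1 - δ - 0.612 : ℝ) := by
    rw [← Real.rpow_add hx0]; congr 1; ring
  have p1 : 0 < x ^ (1 - ε) := Real.rpow_pos_of_pos hx0 _
  have p2 : 0 < x ^ (0.612 : ℝ) := Real.rpow_pos_of_pos hx0 _
  have f1 : 2 * x ^ (1 - ε) ≤ x ^ (1 - δ) := by rw [e1]; nlinarith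
  have f2 : 2 * (45 * ((P₀ + C * (1 + A) ^ (0.612 : ℝ)) * x ^ (0.612 : ℝ))) ≤ x ^ (1 - δ) := by
    rw [e2]; nlinarith
  linarith

/-- There are constants `c, η > 0` such that: for all distinct integers `a 0, ..., a 44` which do not meet all
residue classes modulo any prime, and all `ε > 0`, for all large `x` there are at least `x ^ (1 - ε)` integers
`1 ≤ n ≤ x` such that two of the numbers `n + a i` are consecutive primes `p < q` with `Brocard c η p q`; and for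
all large `x` at least `x ^ (1 - ε)` primes `p ≤ x` have `Brocard c η p q` with the next prime
`q ≤ p + 212`. -/
theorem result : ∃ c η : ℝ, 0 < c ∧ 0 < η ∧
    (∀ a : Fin 45 → ℤ, Function.Injective a →
      (∀ p : ℕ, p.Prime → ∃ r : ℤ, ∀ i, ¬ (p : ℤ) ∣ r + a i) → ∀ ε : ℝ, 0 < ε →
      ∀ᶠ x : ℝ in atTop, x ^ (1 - ε) ≤ (Set.ncard {n : ℕ | 1 ≤ n ∧ (n : ℝ) ≤ x ∧
        ∃ i j, ∃ p q : ℕ, (p : ℤ) = n + a i ∧ (q : ℤ) = n + a j ∧ Brocard c η p q} : ℝ)) ∧
    (∀ ε : ℝ, 0 < ε → ∀ᶠ x : ℝ in atTop, x ^ (1 - ε) ≤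
      (Set.ncard {p : ℕ | (p : ℝ) ≤ x ∧ ∃ q ≤ p + 212, Brocard c η p q} : ℝ)) := by
  classical
  obtain ⟨c, η, C, hc, hη, -, hC, hE⟩ := exceptional
  obtain ⟨P₀, hP₀⟩ := four c η hc hη
  refine ⟨c, η, hc, hη, ?_, ?_⟩
  · intro a hinj hadm ε hε
    set A : ℕ := ∑ i, (a i).natAbs with hA
    have haA : ∀ i, a i ≤ A := fun i => by
      have h1 : (a i).natAbs ≤ A := single_le_sum (f := fun i => (a i).natAbs) (fun _ _ => Nat.zero_le _)
        (mem_univ i)
      omega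
    filter_upwards [Pool.Agent.Y826.ZC.dhl45_consecutive a hinj hadm (min (ε / 2) (1 / 10))
      (lt_min (by linarith) (by norm_num)), few c η C hC hE P₀ A (Nat.cast_nonneg _) ε hε,
      eventually_ge_atTop (0 : ℝ)] with x hF hS hx
    set F : Finset ℕ := (Icc 1 ⌊x⌋₊).filter (fun n : ℕ =>
      (∃ i j, i ≠ j ∧ ∃ p q : ℕ, p.Prime ∧ q.Prime ∧ (p : ℤ) = n + a i ∧ (q : ℤ) = n + a j) ∧
      ∀ p : ℕ, p.Prime → (∃ i j, (n : ℤ) + a i ≤ p ∧ (p : ℤ) ≤ n + a j) → ∃ i, (p : ℤ) = n + a i) with hFdef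
    set G : Set ℕ := {n : ℕ | 1 ≤ n ∧ (n : ℝ) ≤ x ∧
        ∃ i j, ∃ p q : ℕ, (p : ℤ) = n + a i ∧ (q : ℤ) = n + a j ∧ Brocard c η p q} with hG
    have hGfin : G.Finite := (Set.finite_Iic ⌊x⌋₊).subset fun n hn => Nat.le_floor hn.2.1
    -- the pairs of consecutive primes
    have hex : ∀ n ∈ F, ∃ i : Fin 45, ∃ p q : ℕ, (p : ℤ) = n + a i ∧ Consecutive p q ∧ ∃ j : Fin 45, (q : ℤ) = n + a j := by
      intro n hn
      obtain ⟨-, h1, h2⟩ := mem_filter.1 hn
      obtain ⟨i, j, p, q, h3, h4, h5⟩ := first_two a hinj n h1 h2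
      exact ⟨i, p, q, h3, h5, j, h4⟩
    choose! i p q hi hpq j hj using hex
    set B : Finset ℕ := F.filter (fun n => n ∉ G) with hB
    have hBbad : ∀ n ∈ B, ((p n : ℕ) : ℝ) ≤ x + A ∧ (p n < P₀ ∨ ∃ q, Consecutive (p n) q ∧ ¬ Rich c η (p n) q) := by
      intro n hn
      obtain ⟨hnF, hnG⟩ := mem_filter.1 hn
      have hnI := mem_Icc.1 (mem_filter.1 hnF).1
      have hnx : (n : ℝ) ≤ x := (Nat.le_floor_iff hx).1 hnI.2
      constructor
      · have h1 : ((p n : ℕ) : ℤ) ≤ n + A := by rw [hi n hnF]; have := haA (i n); omega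
        have h2 : ((p n : ℕ) : ℝ) ≤ n + A := by exact_mod_cast h1
        linarith
      · by_contra hcon
        push Not at hcon
        apply hnG
        exact ⟨hnI.1, hnx, i n, j n, p n, q n, hi n hnF, hj n hnF,
          hP₀ (p n) (q n) hcon.1 (hpq n hnF) (hcon.2 (q n) (hpq n hnF))⟩
    have hcard : (B.card : ℝ) ≤ 45 * ((B.image p).card : ℝ) := by
      have h1 : B.card ≤ ((B.image p) ×ˢ (univ : Finset (Fin 45))).card := by
        apply card_le_card_of_injOn (fun n => (p n, i n))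
        · intro n hn
          simp only [coe_product, Set.mem_prod, mem_coe]
          exact ⟨mem_image_of_mem p hn, mem_univ _⟩
        · intro n hn n' hn' he
          simp only [Prod.mk.injEq] at he
          have h1 := hi n (mem_filter.1 hn).1
          have h2 := hi n' (mem_filter.1 hn').1
          rw [he.1, he.2] at h1
          omega
      rw [card_product, card_univ, Fintype.card_fin] at h1
      have h2 : (B.card : ℝ) ≤ ((B.image p).card : ℝ) * 45 := by exact_mod_cast h1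
      linarith
    have h1 := hS (B.image p) (by
      intro p' hp'
      obtain ⟨n, hn, rfl⟩ := mem_image.1 hp'
      exact hBbad n hn)
    have h2 : (F.card : ℝ) ≤ (G.ncard : ℝ) + B.card := by
      have h3 : F.card = (F.filter (fun n => n ∈ G)).card + B.card := by
        rw [hB, card_filter_add_card_filter_not]
      have h4 : (F.filter (fun n => n ∈ G)).card ≤ G.ncard := by
        rw [← Set.ncard_coe_finset]
        exact Set.ncard_le_ncard (fun n hn => (mem_filter.1 (mem_coe.1 hn)).2) hGfin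
      have h5 : F.card ≤ G.ncard + B.card := by omega
      exact_mod_cast h5
    linarith
  · intro ε hε
    filter_upwards [Pool.Agent.Y826.ZC.gaps212 (min (ε / 2) (1 / 10))
      (lt_min (by linarith) (by norm_num)), few c η C hC hE P₀ 0 le_rfl ε hε,
      eventually_ge_atTop (0 : ℝ)] with x hF hS hx
    set F : Finset ℕ := (Icc 1 ⌊x⌋₊).filter (fun n : ℕ =>
      Nat.nth Nat.Prime n ≤ x ∧ Nat.nth Nat.Prime (n + 1) - Nat.nth Nat.Prime n ≤ 212) with hFdef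
    set G : Set ℕ := {p : ℕ | (p : ℝ) ≤ x ∧ ∃ q ≤ p + 212, Brocard c η p q} with hG
    have hGfin : G.Finite := (Set.finite_Iic ⌊x⌋₊).subset fun n hn => Nat.le_floor hn.1
    have hmono := Nat.nth_strictMono Nat.infinite_setOfPred_prime
    have hcons : ∀ n, Consecutive (Nat.nth Nat.Prime n) (Nat.nth Nat.Prime (n + 1)) := by
      intro n
      refine ⟨Nat.prime_nth_prime n, Nat.prime_nth_prime (n + 1), hmono (Nat.lt_succ_self n), ?_⟩
      intro r h1 h2 hr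
      obtain ⟨k, -, rfl⟩ := Nat.exists_lt_card_nth_eq hr
      have h3 := hmono.lt_iff_lt.1 h1
      have h4 := hmono.lt_iff_lt.1 h2
      omega
    set F' : Finset ℕ := F.image (Nat.nth Nat.Prime) with hF'
    have hcF : F'.card = F.card := card_image_of_injective _ hmono.injective
    set B : Finset ℕ := F'.filter (fun n => n ∉ G) with hB
    have h1 := hS B (by
      intro p hp
      obtain ⟨hpF, hpG⟩ := mem_filter.1 hp
      obtain ⟨n, hn, rfl⟩ := mem_image.1 hpF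
      obtain ⟨-, hn1, hn2⟩ := mem_filter.1 hn
      refine ⟨by linarith, ?_⟩
      by_contra hcon
      push Not at hcon
      apply hpG
      exact ⟨hn1, Nat.nth Nat.Prime (n + 1), by omega,
        hP₀ _ _ hcon.1 (hcons n) (hcon.2 _ (hcons n))⟩)
    have h2 : (F.card : ℝ) ≤ (G.ncard : ℝ) + B.card := by
      have h3 : F'.card = (F'.filter (fun n => n ∈ G)).card + B.card := by
        rw [hB, card_filter_add_card_filter_not]
      have h4 : (F'.filter (fun n => n ∈ G)).card ≤ G.ncard := by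
        rw [← Set.ncard_coe_finset]
        exact Set.ncard_le_ncard (fun n hn => (mem_filter.1 (mem_coe.1 hn)).2) hGfin
      have h5 : F.card ≤ G.ncard + B.card := by omega
      exact_mod_cast h5
    have h3 : (0 : ℝ) ≤ B.card := Nat.cast_nonneg _
    linarith

end Pool.Agent.Results.MP_739ba1_nt.NarrowTuples
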