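import Pool.Agent.Helper30K1.OT.Third
import Pool.Agent.Helper30K1.OT.Bro
import Pool.Agent.H89B.Exc

set_option autoImplicit false

/-!
# Brocard's conjecture in the right order for one third of ALL gaps, in exact clusters along progressions

There are absolute constants `c₁, η > 0` with the following property. For every `k` there is `K₀`, and for every
`ε > 0` there are `c > 0` and `L`, such that for all `b ≥ 1`, `H ≥ L` and all `l`, `R` there is `C` such that at
EVERY large `x` at least `(1/3 - ε) H` of ALL integers `d ≤ H` have the following property. For at least `c H ^ k`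
of the vectors `t ∈ [-H, H] ^ k` there are a set `P` of at most `K₀` multiples of `2 b` in `[-2 b H, 2 b H]` which
contains `0`, `2 b d` and all `2 b t_i` and has no element between `0` and `2 b d`, and a difference
`1 ≤ D ≤ (log x)^C`, such that for at least `x / (log x)^C` of the `p ≤ x` and each of the `l` numbers
`n = p, p + D, ..., p + (l - 1) D`:

* the primes in `[n - R, n + R]` are exactly the numbers `n + u`, `u ∈ P`, so `n` and `n + 2 b d` are consecutive
  primes and all `n + 2 b t_i` are prime;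
* for every prime `r` in `[n - R, n + R]` with next prime `s` each interval of length `h ≥ r ^ (1 - η)` between `r²`
  and `s²` contains at least `c₁ h / log r` primes; in particular there are at least `c₁ (s² - r²) / log r` primes
  between `r²` and `s²`, which is the right order, where the question asks for four.

With `b = 1`: Brocard's conjecture in the right order for infinitely many `n` with `p_{n+1} - p_n = 2 d`, for at least
one third of all even numbers `2 d`; by the pigeonhole principle the `d`, `t`, `P` can be fixed for all `l`, `R`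
simultaneously and arbitrarily large `x`: this is `fixed_patterns`.

Proof: the coloured Maynard-Tao theorem along narrow progressions (`Pool.Agent.Y827.HN.patR`) and the
configurations of `Pool.Agent.N646.TT.config2` (starting files), van der Waerden's theorem for exact patterns, and
the bound `C X ^ 0.612` of helper89 for the number of primes `r ≤ X` with a poor interval between `r²` and `s²`
(`Pool.Agent.H89B.exceptional`, from `Pool.Agent.Q278.KT.mainp_half` of the starting files).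
-/

namespace Pool.Agent.Results.MP_739ba1_nt.OneThirdOfGaps

open Finset Filter
open Pool.Agent.H89B (Consecutive primesIn Rich)

open Classical in
/-- the number of the `1 ≤ p ≤ x` such that for all `n = p + j D`, `0 ≤ j < l`, the primes in `[n - R, n + R]` are
exactly the `n + u`, `u ∈ P`, and `Rich c₁ η r s` holds for all primes `r` in `[n - R, n + R]` with next prime `s` -/
noncomputable def progressions (c₁ η : ℝ) (P : Finset ℤ) (l R D x : ℕ) : ℕ :=
  ((Icc 1 x).filter (fun p : ℕ => ∀ j < l,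
    (∀ u : ℤ, |u| ≤ R → ((((p + j * D : ℕ) : ℤ) + u).toNat.Prime ↔ u ∈ P)) ∧
    ∀ r s : ℕ, Consecutive r s → |(r : ℤ) - (p + j * D : ℕ)| ≤ R → Rich c₁ η r s)).card

/-- There is a difference `1 ≤ D ≤ (log x)^C` with at least `x / (log x)^C` such progressions. -/
def Many (c₁ η : ℝ) (P : Finset ℤ) (l R C x : ℕ) : Prop :=
  ∃ D : ℕ, 1 ≤ D ∧ (D : ℝ) ≤ Real.log x ^ C ∧
    (x : ℝ) / Real.log x ^ C ≤ (progressions c₁ η P l R D x : ℝ)

/-- `P` is a set of at most `K₀` multiples of `2 b` in `[-2 b H, 2 b H]`, it contains `0`, `2 b d` and all `2 b t_i`,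
and it has no element between `0` and `2 b d`. -/
def Pattern {k : ℕ} (b K₀ H d : ℕ) (t : Fin k → ℤ) (P : Finset ℤ) : Prop :=
  P.card ≤ K₀ ∧ (∀ u ∈ P, 2 * (b : ℤ) ∣ u ∧ |u| ≤ 2 * (b : ℤ) * H) ∧ 0 ∈ P ∧ 2 * (b : ℤ) * d ∈ P ∧
    (∀ i, 2 * (b : ℤ) * t i ∈ P) ∧ ∀ u ∈ P, ¬ (0 < u ∧ u < 2 * (b : ℤ) * d)

open Classical in
/-- the number of the vectors `t ∈ [-H, H] ^ k` with different coordinates, none of them `0` or `d`, for which
there is a pattern `P` as above with the property `G` -/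
noncomputable def extensions (k b K₀ H d : ℕ) (G : Finset ℤ → Prop) : ℕ :=
  ((Fintype.piFinset (fun _ : Fin k => Icc (-(H : ℤ)) H)).filter (fun t : Fin k → ℤ =>
    Function.Injective t ∧ (∀ i, t i ≠ 0 ∧ t i ≠ d) ∧ ∃ P, Pattern b K₀ H d t P ∧ G P)).card

theorem many_of {c₁ η : ℝ} {P : Finset ℤ} {l R C x : ℕ}
    (h : Pool.Agent.Helper30K1.OT.ManyB (fun r => ∃ s, Consecutive r s ∧ ¬ Rich c₁ η r s) P l R C x) :
    Many c₁ η P l R C x := by
  classical
  obtain ⟨D, h1, h2, h3⟩ := h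
  refine ⟨D, h1, h2, h3.trans ?_⟩
  rw [Nat.cast_le]
  unfold Pool.Agent.Helper30K1.OT.cb progressions
  apply card_le_card
  intro p hp
  obtain ⟨h4, h5⟩ := mem_filter.1 hp
  refine mem_filter.2 ⟨h4, fun j hj => ⟨(h5 j hj).1, fun r s hrs hr => ?_⟩⟩
  by_contra hcon
  exact (h5 j hj).2 r hr ⟨s, hrs, hcon⟩

theorem pattern_of {k b K₀ H d : ℕ} {t : Fin k → ℤ} {P : Finset ℤ}
    (h : Pool.Agent.Helper30K1.OT.Shape (2 * b) K₀ H d t P) : Pattern b K₀ H d t P := by
  have e : ((2 * b : ℕ) : ℤ) = 2 * (b : ℤ) := by push_cast; ring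
  unfold Pool.Agent.Helper30K1.OT.Shape at h
  rw [e] at h
  exact h

theorem extensions_le {k b K₀ H d : ℕ} {G G' : Finset ℤ → Prop} (hG : ∀ P, G P → G' P) :
    (Pool.Agent.N646.TT.extQ k (fun d t => ∃ P : Finset ℤ,
      Pool.Agent.Helper30K1.OT.Shape (2 * b) K₀ H d t P ∧ G P) H d).card ≤
      extensions k b K₀ H d G' := by
  classical
  unfold extensions
  apply card_le_card
  intro t ht
  obtain ⟨h1, h2, h3, P, h4, h5⟩ := Pool.Agent.Helper30K1.OT.mem_extQ.1 ht
  exact mem_filter.2 ⟨h1, h2, h3, P, pattern_of h4, hG P h5⟩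

theorem few : ∃ c₁ η : ℝ, 0 < c₁ ∧ 0 < η ∧ Pool.Agent.Helper30K1.OT.FewPoor
    (fun r => ∃ s, Consecutive r s ∧ ¬ Rich c₁ η r s) := by
  classical
  obtain ⟨c₁, η, C, hc, hη, -, hC, h⟩ := Pool.Agent.H89B.exceptional
  refine ⟨c₁, η, hc, hη, C, fun X hX => ?_⟩
  have hX1 : (1 : ℝ) ≤ X := by exact_mod_cast hX
  refine (h X hX1 _ (fun p hp => ?_)).trans ?_
  · obtain ⟨h1, h2⟩ := mem_filter.1 hp
    exact ⟨by exact_mod_cast (mem_Icc.1 h1).2, h2⟩
  · apply mul_le_mul_of_nonneg_left _ hC.le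
    exact Real.rpow_le_rpow_of_exponent_le hX1 (by norm_num)

open Classical in
/-- the property for all `l` and `R` and arbitrarily large `x`, with fixed `d`, `t` and `P` -/
theorem fixed_patterns : ∃ c₁ η : ℝ, 0 < c₁ ∧ 0 < η ∧ ∀ k : ℕ, ∃ K₀ : ℕ, ∀ ε : ℝ, 0 < ε →
    ∃ c : ℝ, 0 < c ∧ ∃ L : ℕ, ∀ b : ℕ, 1 ≤ b → ∀ H : ℕ, L ≤ H →
      (1 / 3 - ε) * (H : ℝ) ≤ (((Icc 1 H).filter (fun d : ℕ => c * (H : ℝ) ^ k ≤
        (extensions k b K₀ H d (fun P => ∀ l R : ℕ, ∃ C : ℕ, ∃ᶠ x : ℕ in atTop,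
          Many c₁ η P l R C x) : ℝ))).card : ℝ) := by
  obtain ⟨c₁, η, hc₁, hη, hfew⟩ := few
  refine ⟨c₁, η, hc₁, hη, fun k => ?_⟩
  obtain ⟨K₀, h⟩ := Pool.Agent.Helper30K1.OT.third_tra k
  refine ⟨K₀, fun ε hε => ?_⟩
  obtain ⟨c, hc, L, hL⟩ := h ε hε
  refine ⟨c, hc, L, fun b hb H hH => ?_⟩
  refine (hL b hb H hH).1.trans ?_
  rw [Nat.cast_le]
  apply card_le_card
  intro d hd
  obtain ⟨g1, g2⟩ := mem_filter.1 hd
  refine mem_filter.2 ⟨g1, g2.trans ?_⟩
  rw [Nat.cast_le]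
  refine extensions_le fun P hP l R => ?_
  obtain ⟨C, hC⟩ := hP l R
  refine ⟨C + 1, (hC.and_eventually (Pool.Agent.Helper30K1.OT.manyB_of hfew l R C)).mono ?_⟩
  rintro x ⟨h1, h2⟩
  exact many_of (h2 P h1)

open Classical in
/-- **Brocard's conjecture in the right order for one third of all gaps.** -/
theorem result : ∃ c₁ η : ℝ, 0 < c₁ ∧ 0 < η ∧ ∀ k : ℕ, ∃ K₀ : ℕ, ∀ ε : ℝ, 0 < ε →
    ∃ c : ℝ, 0 < c ∧ ∃ L : ℕ, ∀ b : ℕ, 1 ≤ b → ∀ H : ℕ, L ≤ H →
      ∀ l R : ℕ, ∃ C : ℕ, ∀ᶠ x : ℕ in atTop,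
        (1 / 3 - ε) * (H : ℝ) ≤ (((Icc 1 H).filter (fun d : ℕ => c * (H : ℝ) ^ k ≤
          (extensions k b K₀ H d (fun P => Many c₁ η P l R C x) : ℝ))).card : ℝ) := by
  obtain ⟨c₁, η, hc₁, hη, hfew⟩ := few
  refine ⟨c₁, η, hc₁, hη, fun k => ?_⟩
  obtain ⟨K₀, h⟩ := Pool.Agent.Helper30K1.OT.third_tra k
  refine ⟨K₀, fun ε hε => ?_⟩
  obtain ⟨c, hc, L, hL⟩ := h ε hε
  refine ⟨c, hc, L, fun b hb H hH l R => ?_⟩
  obtain ⟨C, hC⟩ := (hL b hb H hH).2 l R
  refine ⟨C + 1, ?_⟩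
  filter_upwards [hC, Pool.Agent.Helper30K1.OT.manyB_of hfew l R C] with x h1 h2
  refine h1.trans ?_
  rw [Nat.cast_le]
  apply card_le_card
  intro d hd
  obtain ⟨g1, g2⟩ := mem_filter.1 hd
  refine mem_filter.2 ⟨g1, g2.trans ?_⟩
  rw [Nat.cast_le]
  exact extensions_le fun P hP => many_of (h2 P hP)

end Pool.Agent.Results.MP_739ba1_nt.OneThirdOfGaps
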