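import Pool.Agent.T63.BrocG

set_option autoImplicit false

/-!
# MP_739ba1_nt: orderings of consecutive values of `N(n)`

`N(n)` is the number of the primes strictly between the squares of the `n`-th and the `(n + 1)`-th
prime. Let `f(X) = log X (log₂ X)² log₄ X / (log₃ X)²`, the size of the largest gaps between primes that
are known to occur. At every scale `H` between `log X` and `c f(X)` there are at least `X ^ (7/8) / 2`
runs of `k` consecutive values of `N`, with `p_n` between `X` and `4 X`, which are all of size `n H` up to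
constants and have a prescribed ordering, any two of them differing at least by the factor `A`, for
six orderings of `k` values and their reversals. In particular every ordering of three consecutive values
of `N` and every pattern of rises and falls of four consecutive values occurs.

Proof: orderings of consecutive prime gaps of record size (`Pool.Agent.TH29.GO`, from
`Pool.Agent.H362R2.RQ`), the lower bound of the right order for the number of primes between the squares
of consecutive primes outside an exceptional set of at most `C X ^ 0.612` primes (`Pool.Agent.H89B.Exc`)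
and the theorem of Brun and Titchmarsh.
-/

namespace Pool.Agent.Results.MP_739ba1_nt.OrderPatterns

/-- The `n`-th prime, `p 1 = 2`. -/
noncomputable def p (n : ℕ) : ℕ := Nat.nth Nat.Prime (n - 1)

/-- The number of primes strictly between `p n ^ 2` and `p (n + 1) ^ 2`. -/
noncomputable def N (n : ℕ) : ℕ := {q : ℕ | q.Prime ∧ p n ^ 2 < q ∧ q < p (n + 1) ^ 2}.ncard

/-- `f(X) = log X (log₂ X)² log₄ X / (log₃ X)²` (iterated natural logarithms). -/
noncomputable def f (X : ℝ) : ℝ :=
  Real.log X * (Real.log (Real.log X)) ^ 2 * Real.log (Real.log (Real.log (Real.log X))) /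
    (Real.log (Real.log (Real.log X))) ^ 2

/-- `X < p_n`, `p_(n+k) ≤ 4 X`, the `k` numbers `N(n), …, N(n+k-1)` are between `c n H` and `n H / c` and
compatible with the relation `lt` with the factor `A`. -/
def Run {k : ℕ} (lt : Fin k → Fin k → Prop) (A c H X : ℝ) (n : ℕ) : Prop :=
  X < (p n : ℝ) ∧ (p (n + k) : ℝ) ≤ 4 * X ∧
  (∀ i : Fin k, c * (n * H) ≤ N (n + i) ∧ (N (n + i) : ℝ) ≤ n * H / c) ∧
  ∀ i j : Fin k, lt i j → A * N (n + i) ≤ N (n + j)

/-- For every `A` there is `c > 0` such that for all large `X`: for every `H` with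
`log X ≤ H ≤ c f(X)` there are at least `X ^ (7/8) / 2` such `n`. -/
def Occurs {k : ℕ} (lt : Fin k → Fin k → Prop) : Prop :=
  ∀ A : ℝ, ∃ c : ℝ, 0 < c ∧ ∃ X₀ : ℝ, ∀ X : ℝ, X₀ ≤ X →
    ∀ H : ℝ, Real.log X ≤ H → H ≤ c * f X →
      X ^ (7 / 8 : ℝ) / 2 ≤ ({n : ℕ | Run lt A c H X n}.ncard : ℝ)

/-- Six orderings of `k` values: the value number `i < k` has the rank `o i` among the `k` values.
In words, with ranks counted from `1`: `1, …, k`; `1, …, k-2, k, k-1`; `k-2, …, 1, k, k-1`;
`2, …, k, 1`; `k-1, …, 1, k`; `1, k, 2, …, k-1`. -/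
def orders (k : ℕ) : List (ℕ → ℕ) :=
  [fun i => i,
   fun i => if i + 2 < k then i else 2 * k - 3 - i,
   fun i => if i + 2 < k then k - 3 - i else 2 * k - 3 - i,
   fun i => if i + 1 < k then i + 1 else 0,
   fun i => if i + 1 < k then k - 2 - i else k - 1,
   fun i => if i = 0 then 0 else if i = 1 then k - 1 else i - 1]

open Pool.Agent.TH29.GO

theorem occ (k : ℕ) (σ : ℕ → ℕ) (lt : Fin k → Fin k → Prop) (h : ∀ c₀, 1 ≤ c₀ → Forces c₀ k σ)
    (hlt : ∀ i j, lt i j → σ i < σ j) : Occurs lt := by
  intro A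
  obtain ⟨c, hc, hmain⟩ := Pool.Agent.T63.Broc.patterns_final h A
  obtain ⟨X₀, hX₀⟩ := Filter.eventually_atTop.1 hmain
  refine ⟨c, hc, X₀, fun X hX H hH1 hH2 => (hX₀ X hX H hH1 hH2).trans ?_⟩
  rw [Nat.cast_le]
  have hp : ∀ n : ℕ, p (n + 1) = Pool.Agent.T63.Broc.P n := fun n => rfl
  have hN : ∀ n : ℕ, N (n + 1) = Pool.Agent.T63.Broc.N n := fun n => rfl
  have hfin : {n : ℕ | Run lt A c H X n}.Finite := by
    refine (Set.finite_Iic (⌊4 * X⌋₊ + 1)).subset ?_
    rintro n ⟨-, h1, -⟩
    rw [Set.mem_Iic]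
    rcases Nat.eq_zero_or_pos n with h0 | h0
    · omega
    obtain ⟨m, rfl⟩ : ∃ m, n = m + 1 := ⟨n - 1, by omega⟩
    rw [show m + 1 + k = m + k + 1 by omega, hp] at h1
    have h2 : m ≤ ⌊4 * X⌋₊ := by
      refine Nat.le_floor (le_trans ?_ h1)
      exact_mod_cast (Nat.le_add_right m k).trans (Pool.Agent.T63.Broc.le_P (m + k))
    omega
  rw [← Set.ncard_image_of_injective _ (add_left_injective 1)]
  refine Set.ncard_le_ncard ?_ hfin
  rintro _ ⟨n, ⟨h1, h2, h3, h4⟩, rfl⟩
  have e : ∀ i : ℕ, N (n + 1 + i) = Pool.Agent.T63.Broc.N (n + i) := fun i => by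
    rw [show n + 1 + i = n + i + 1 by omega, hN]
  refine ⟨?_, ?_, fun i => ⟨?_, ?_⟩, fun i j hij => ?_⟩
  · change X < (p (n + 1) : ℝ)
    rw [hp]; exact h1
  · change (p (n + 1 + k) : ℝ) ≤ 4 * X
    rw [show n + 1 + k = n + k + 1 by omega, hp]
    exact h2
  · change c * (((n + 1 : ℕ) : ℝ) * H) ≤ N (n + 1 + i)
    rw [e]
    have h5 := (h3 i i.2).1
    push_cast
    linarith
  · change (N (n + 1 + i) : ℝ) ≤ ((n + 1 : ℕ) : ℝ) * H / c
    rw [e, le_div_iff₀ hc]
    have h5 := (h3 i i.2).2
    push_cast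
    linarith
  · change A * (N (n + 1 + i) : ℝ) ≤ N (n + 1 + j)
    rw [e, e]
    exact h4 i j i.2 j.2 (hlt i j hij)

/-- Orderings of consecutive values of `N`, see `Occurs`. For every `k ≥ 3` the six orderings `orders k`
of `k` consecutive values, and their reversals, occur (twelve orderings if `k ≥ 4`). In particular every
ordering of three consecutive values occurs, and every pattern of rises (`ε l = true`) and falls
(`ε l = false`) of four consecutive values occurs. -/
theorem result :
    (∀ k : ℕ, 3 ≤ k → ∀ o ∈ orders k, Occurs (fun i j : Fin k => o i < o j) ∧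
      Occurs (fun i j : Fin k => o (k - 1 - i) < o (k - 1 - j))) ∧
    (∀ σ : Equiv.Perm (Fin 3), Occurs (fun i j : Fin 3 => σ i < σ j)) ∧
    (∀ ε : Fin 3 → Bool, Occurs (fun i j : Fin 4 => ∃ l : Fin 3,
      (ε l = true ∧ i = l.castSucc ∧ j = l.succ) ∨
        (ε l = false ∧ i = l.succ ∧ j = l.castSucc))) :=
  orders_all (fun _ lt => Occurs lt) occ

end Pool.Agent.Results.MP_739ba1_nt.OrderPatterns
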